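import Pool.Agent.H79.GT.Targets

/-!
# Quasimodes of a density: the radius does not depend on the interval (helper52, MP_81a758_an)

Row SAME of the board `bq_modules`.
-/

set_option autoImplicit false

namespace Pool.Agent.H52.BQ

open MeasureTheory Set Filter Topology Pool.Agent.H79.GT

/-- Row SAME. -/
theorem pf_SAME (h : T_RAD) : T_SAME := by
  have key : ∀ (f f' p : ℝ → ℝ) (l u l' u' : ℝ), Dns f p l u → Dns f' p l' u' →
      ∀ r > (0 : ℝ), ∀ x, l < x → x < u → l' < x → x < u' → ¬ Zn p l u r x →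
      ¬ Zn p l' u' r x → rad p l' u' r x ≤ rad p l u r x := by
    intro f f' p l u l' u' H H' r hr x h1 h2 h3 h4 hz hz'
    obtain ⟨ha, hb, -, hd⟩ := h f p l u H r hr
    obtain ⟨ha', hb', -, hd'⟩ := h f' p l' u' H' r hr
    have e1 := hd x h1.le h2.le hz
    have e2 := hd' x h3.le h4.le hz'
    obtain ⟨-, a1, a2, -⟩ := ha' x h3.le h4.le
    have p1 := hb x h1 h2
    by_contra hc
    push Not at hc
    have i1 := H'.inc (x - rad p l' u' r x) (x - rad p l u r x) a1 (by linarith) (by linarith)
    have i2 := H'.inc (x + rad p l u r x) (x + rad p l' u' r x) (by linarith) (by linarith) a2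
    linarith
  intro f f' p l u l' u' H H' r hr x h1 h2 h3 h4 hz hz'
  exact le_antisymm (key f' f p l' u' l u H' H r hr x h3 h4 h1 h2 hz' hz)
    (key f f' p l u l' u' H H' r hr x h1 h2 h3 h4 hz hz')

end Pool.Agent.H52.BQ
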